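import Mathlib

/-!
# Euler numbers of integral fibres against the multiplicities of the discriminant curve

`w i = 1` for a component of the discriminant with fibres of type `I_1`, `w i = 2` for type `II`,
`m i` is its degree, `mu p i` its multiplicity at the point `p`.
-/

namespace Pool.Agent.H10.ED

open Finset

/-- the local inequality in the two numbers `a` (multiplicities of the components of type `I_1`)
and `b` (type `II`). -/
theorem local_aux (a b : ℕ) (e : ℤ)
    (h1 : e ≠ 0 → e ≤ 2 * ((a : ℤ) + 2 * b) - 3)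
    (h2 : e ≠ 0 → b ≠ 0 → e ≤ 2 * ((a : ℤ) + 2 * b) - 4) :
    2 * e ≤ ((a : ℤ) + 2 * b) ^ 2 - (a + 4 * b) := by
  have ha : (0 : ℤ) ≤ (a : ℤ) * (a - 1) := by
    rcases Nat.eq_zero_or_pos a with h | h
    · simp [h]
    · have : (1 : ℤ) ≤ a := by exact_mod_cast h
      nlinarith
  have hb : (0 : ℤ) ≤ (b : ℤ) * (b - 1) := by
    rcases Nat.eq_zero_or_pos b with h | h
    · simp [h]
    · have : (1 : ℤ) ≤ b := by exact_mod_cast h
      nlinarith
  have hab : (0 : ℤ) ≤ (a : ℤ) * b := by positivity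
  by_cases he : e = 0
  · subst he
    nlinarith
  · have h1' := h1 he
    rcases Nat.eq_zero_or_pos b with hb0 | hb0
    · subst hb0
      have h3 : (0 : ℤ) ≤ ((a : ℤ) - 2) * (a - 3) := by
        rcases Nat.lt_or_ge a 3 with h | h
        · interval_cases a <;> norm_num
        · have : (3 : ℤ) ≤ a := by exact_mod_cast h
          nlinarith
      push_cast at *
      nlinarith
    · have h2' := h2 he (by omega)
      rcases Nat.lt_or_ge b 2 with h | h
      · have hb1 : b = 1 := by omega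
        subst hb1
        push_cast at *
        nlinarith
      · have h4 : (2 : ℤ) ≤ b := by exact_mod_cast h
        have h5 : (0 : ℤ) ≤ ((b : ℤ) - 1) * (b - 2) := by nlinarith
        have h6 : (0 : ℤ) ≤ (a : ℤ) * (b - 2) := by
          have : (0 : ℤ) ≤ (a : ℤ) := by positivity
          nlinarith
        have h7 : (0 : ℤ) ≤ (a : ℤ) := by positivity
        nlinarith

variable {ι P : Type} [Fintype ι] [Fintype P]

/-- the local inequality. -/
theorem local_le (w : ι → ℕ) (hw : ∀ i, w i = 1 ∨ w i = 2) (mu : ι → ℕ) (e : ℤ)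
    (h1 : e ≠ 0 → e ≤ 2 * (∑ i, (w i : ℤ) * mu i) - 3)
    (h2 : e ≠ 0 → (∃ i, w i = 2 ∧ mu i ≠ 0) → e ≤ 2 * (∑ i, (w i : ℤ) * mu i) - 4) :
    2 * e ≤ (∑ i, (w i : ℤ) * mu i) ^ 2 - ∑ i, (w i : ℤ) ^ 2 * mu i := by
  classical
  set a : ℕ := ∑ i with w i = 1, mu i with ha
  set b : ℕ := ∑ i with w i = 2, mu i with hb
  have hne : ∀ i, ¬ (w i = 1) ↔ w i = 2 := by
    intro i
    rcases hw i with h | h <;> simp [h]
  have hs : (∑ i, (w i : ℤ) * mu i) = (a : ℤ) + 2 * b := by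
    rw [← Finset.sum_filter_add_sum_filter_not univ (fun i => w i = 1)]
    congr 1
    · rw [ha]
      push_cast
      refine Finset.sum_congr rfl fun i hi => ?_
      rw [(Finset.mem_filter.1 hi).2]
      simp
    · rw [hb]
      push_cast
      rw [Finset.mul_sum]
      have : (univ.filter fun i => ¬ w i = 1) = univ.filter fun i => w i = 2 :=
        Finset.filter_congr fun i _ => hne i
      rw [this]
      refine Finset.sum_congr rfl fun i hi => ?_
      rw [(Finset.mem_filter.1 hi).2]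
      simp
  have hq : (∑ i, (w i : ℤ) ^ 2 * mu i) = (a : ℤ) + 4 * b := by
    rw [← Finset.sum_filter_add_sum_filter_not univ (fun i => w i = 1)]
    congr 1
    · rw [ha]
      push_cast
      refine Finset.sum_congr rfl fun i hi => ?_
      rw [(Finset.mem_filter.1 hi).2]
      simp
    · rw [hb]
      push_cast
      rw [Finset.mul_sum]
      have : (univ.filter fun i => ¬ w i = 1) = univ.filter fun i => w i = 2 :=
        Finset.filter_congr fun i _ => hne i
      rw [this]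
      refine Finset.sum_congr rfl fun i hi => ?_
      rw [(Finset.mem_filter.1 hi).2]
      norm_num
  rw [hs, hq]
  rw [hs] at h1 h2
  refine local_aux a b e h1 fun he hb0 => h2 he ?_
  by_contra hcon
  push Not at hcon
  exact hb0 (Finset.sum_eq_zero fun i hi => hcon i (Finset.mem_filter.1 hi).2)

/-- the sum of the local terms, by Bezout's theorem. -/
theorem sum_le (w m : ι → ℕ) (hw : ∀ i, w i = 1 ∨ w i = 2) (mu : P → ι → ℕ)
    (bezout : ∀ i j, i ≠ j → ∑ p, (mu p i : ℤ) * mu p j ≤ (m i : ℤ) * m j)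
    (polar : ∀ i, ∑ p, ((mu p i : ℤ) ^ 2 - mu p i) ≤ (m i : ℤ) ^ 2 - m i) :
    ∑ p, ((∑ i, (w i : ℤ) * mu p i) ^ 2 - ∑ i, (w i : ℤ) ^ 2 * mu p i) ≤
      (∑ i, (w i : ℤ) * m i) ^ 2 - ∑ i, (w i : ℤ) * m i := by
  classical
  have expand : ∀ x : ι → ℤ, (∑ i, (w i : ℤ) * x i) ^ 2 - ∑ i, (w i : ℤ) ^ 2 * x i =
      (∑ i, (w i : ℤ) ^ 2 * (x i ^ 2 - x i)) +
        ∑ i, ∑ j ∈ univ.erase i, (w i : ℤ) * w j * (x i * x j) := by
    intro x
    have h1 : (∑ i, (w i : ℤ) * x i) ^ 2 = ∑ i, ∑ j, (w i : ℤ) * w j * (x i * x j) := by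
      rw [sq, Finset.sum_mul_sum]
      refine Finset.sum_congr rfl fun i _ => Finset.sum_congr rfl fun j _ => by ring
    have h2 : ∀ i, ∑ j, (w i : ℤ) * w j * (x i * x j) =
        (w i : ℤ) ^ 2 * x i ^ 2 + ∑ j ∈ univ.erase i, (w i : ℤ) * w j * (x i * x j) := by
      intro i
      rw [← Finset.add_sum_erase univ _ (Finset.mem_univ i)]
      ring
    rw [h1, Finset.sum_congr rfl fun i _ => h2 i, Finset.sum_add_distrib]
    have h3 : (∑ i, (w i : ℤ) ^ 2 * (x i ^ 2 - x i)) =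
        (∑ i, (w i : ℤ) ^ 2 * x i ^ 2) - ∑ i, (w i : ℤ) ^ 2 * x i := by
      rw [← Finset.sum_sub_distrib]
      exact Finset.sum_congr rfl fun i _ => by ring
    rw [h3]
    ring
  rw [Finset.sum_congr rfl fun p _ => expand fun i => (mu p i : ℤ), Finset.sum_add_distrib]
  have hA : ∑ p, ∑ i, (w i : ℤ) ^ 2 * ((mu p i : ℤ) ^ 2 - mu p i) ≤
      ∑ i, (w i : ℤ) ^ 2 * ((m i : ℤ) ^ 2 - m i) := by
    rw [Finset.sum_comm]
    refine Finset.sum_le_sum fun i _ => ?_
    rw [← Finset.mul_sum]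
    exact mul_le_mul_of_nonneg_left (polar i) (by positivity)
  have hB : ∑ p, ∑ i, ∑ j ∈ univ.erase i, (w i : ℤ) * w j * ((mu p i : ℤ) * mu p j) ≤
      ∑ i, ∑ j ∈ univ.erase i, (w i : ℤ) * w j * ((m i : ℤ) * m j) := by
    rw [Finset.sum_comm]
    refine Finset.sum_le_sum fun i _ => ?_
    rw [Finset.sum_comm]
    refine Finset.sum_le_sum fun j hj => ?_
    rw [← Finset.mul_sum]
    exact mul_le_mul_of_nonneg_left (bezout i j (Finset.ne_of_mem_erase hj).symm) (by positivity)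
  have hC := expand fun i => (m i : ℤ)
  have hD : (∑ i, (w i : ℤ) * m i) ≤ ∑ i, (w i : ℤ) ^ 2 * m i := by
    refine Finset.sum_le_sum fun i _ => ?_
    have h0 : (0 : ℤ) ≤ (m i : ℤ) := by positivity
    rcases hw i with h | h <;> rw [h] <;> push_cast <;> nlinarith
  linarith

/-- **Euler number of the total space against the degree of the discriminant.** `m_p` is
`∑ i, w i * mu p i`. -/
theorem euler_le (w m : ι → ℕ) (hw : ∀ i, w i = 1 ∨ w i = 2) (mu : P → ι → ℕ) (e : P → ℤ)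
    (bezout : ∀ i j, i ≠ j → ∑ p, (mu p i : ℤ) * mu p j ≤ (m i : ℤ) * m j)
    (polar : ∀ i, ∑ p, ((mu p i : ℤ) ^ 2 - mu p i) ≤ (m i : ℤ) ^ 2 - m i)
    (h1 : ∀ p, e p ≠ 0 → e p ≤ 2 * (∑ i, (w i : ℤ) * mu p i) - 3)
    (h2 : ∀ p, e p ≠ 0 → (∃ i, w i = 2 ∧ mu p i ≠ 0) →
      e p ≤ 2 * (∑ i, (w i : ℤ) * mu p i) - 4) :
    2 * ∑ p, e p ≤ (∑ i, (w i : ℤ) * m i) ^ 2 - ∑ i, (w i : ℤ) * m i := by
  rw [Finset.mul_sum]
  exact (Finset.sum_le_sum fun p _ => local_le w hw (mu p) (e p) (h1 p) (h2 p)).trans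
    (sum_le w m hw mu bezout polar)

end Pool.Agent.H10.ED
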