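import Pool.Agent.H10.ED.Inv

/-!
# From the lattice `Fin 4 → ℤ` to the rational vector space
-/

namespace Pool.Agent.H10.ED

open Module

/-- the inclusion of the lattice. -/
def io : (Fin 4 → ℤ) →ₗ[ℤ] (Fin 4 → ℚ) where
  toFun x := fun j => (x j : ℚ)
  map_add' x y := by ext j; simp
  map_smul' c x := by ext j; simp

theorem io_apply (x : Fin 4 → ℤ) (j : Fin 4) : io x j = (x j : ℚ) := rfl

theorem io_inj : Function.Injective io := by
  intro x y h
  ext j
  have := congrFun h j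
  simpa [io_apply] using this

theorem io_single (j : Fin 4) : io (Pi.single j 1) = Pi.single j (1 : ℚ) := by
  ext k
  simp [io_apply, Pi.single_apply]

/-- two linear maps on the rational space which agree on the lattice are equal. -/
theorem ext_io {V : Type} [AddCommGroup V] [Module ℚ V] {f g : (Fin 4 → ℚ) →ₗ[ℚ] V}
    (h : ∀ x, f (io x) = g (io x)) : f = g := by
  refine (Pi.basisFun ℚ (Fin 4)).ext fun j => ?_
  rw [Pi.basisFun_apply, ← io_single]
  exact h _

/-- the extension of a linear map. -/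
noncomputable def mapQ (T : (Fin 4 → ℤ) →ₗ[ℤ] (Fin 4 → ℤ)) : (Fin 4 → ℚ) →ₗ[ℚ] (Fin 4 → ℚ) :=
  (Pi.basisFun ℚ (Fin 4)).constr ℚ fun j => io (T (Pi.single j 1))

theorem sum_single (x : Fin 4 → ℤ) : x = ∑ j, x j • (Pi.single j 1 : Fin 4 → ℤ) := by
  ext k
  simp [Finset.sum_apply, Pi.single_apply]

theorem io_sum (x : Fin 4 → ℤ) : io x = ∑ j, (x j : ℚ) • (Pi.single j 1 : Fin 4 → ℚ) := by
  ext k
  simp [Finset.sum_apply, Pi.single_apply, io_apply]

theorem mapQ_single (T : (Fin 4 → ℤ) →ₗ[ℤ] (Fin 4 → ℤ)) (j : Fin 4) :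
    mapQ T (Pi.single j 1) = io (T (Pi.single j 1)) := by
  have := (Pi.basisFun ℚ (Fin 4)).constr_basis ℚ (fun j => io (T (Pi.single j 1))) j
  rwa [Pi.basisFun_apply] at this

theorem mapQ_io (T : (Fin 4 → ℤ) →ₗ[ℤ] (Fin 4 → ℤ)) (x : Fin 4 → ℤ) :
    mapQ T (io x) = io (T x) := by
  rw [io_sum x, map_sum]
  conv_rhs => rw [sum_single x, map_sum, map_sum]
  refine Finset.sum_congr rfl fun j _ => ?_
  rw [map_smul, mapQ_single, map_smul, map_smul]
  ext k
  simp

/-- the extension of a bilinear form. -/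
noncomputable def formQ : ((Fin 4 → ℤ) →ₗ[ℤ] (Fin 4 → ℤ) →ₗ[ℤ] ℤ) →ₗ[ℤ]
    ((Fin 4 → ℚ) →ₗ[ℚ] (Fin 4 → ℚ) →ₗ[ℚ] ℚ) where
  toFun B := (Pi.basisFun ℚ (Fin 4)).constr ℚ fun i => (Pi.basisFun ℚ (Fin 4)).constr ℚ fun j =>
    (B (Pi.single i 1) (Pi.single j 1) : ℚ)
  map_add' A B := by
    refine (Pi.basisFun ℚ (Fin 4)).ext fun i => (Pi.basisFun ℚ (Fin 4)).ext fun j => ?_
    rw [LinearMap.add_apply, LinearMap.add_apply]
    simp only [Basis.constr_basis, LinearMap.add_apply]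
    push_cast
    ring
  map_smul' c A := by
    refine (Pi.basisFun ℚ (Fin 4)).ext fun i => (Pi.basisFun ℚ (Fin 4)).ext fun j => ?_
    simp only [Basis.constr_basis, LinearMap.smul_apply, RingHom.id_apply]
    simp

theorem formQ_single (B : (Fin 4 → ℤ) →ₗ[ℤ] (Fin 4 → ℤ) →ₗ[ℤ] ℤ) (i j : Fin 4) :
    formQ B (Pi.single i 1) (Pi.single j 1) = (B (Pi.single i 1) (Pi.single j 1) : ℚ) := by
  have h1 := (Pi.basisFun ℚ (Fin 4)).constr_basis ℚ (fun i => (Pi.basisFun ℚ (Fin 4)).constr ℚ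
    fun j => (B (Pi.single i 1) (Pi.single j 1) : ℚ)) i
  rw [Pi.basisFun_apply] at h1
  have h2 := (Pi.basisFun ℚ (Fin 4)).constr_basis ℚ
    (fun j => (B (Pi.single i 1) (Pi.single j 1) : ℚ)) j
  rw [Pi.basisFun_apply] at h2
  change ((Pi.basisFun ℚ (Fin 4)).constr ℚ fun i => (Pi.basisFun ℚ (Fin 4)).constr ℚ fun j =>
    (B (Pi.single i 1) (Pi.single j 1) : ℚ)) (Pi.single i 1) (Pi.single j 1) = _
  rw [h1, h2]

theorem formQ_io (B : (Fin 4 → ℤ) →ₗ[ℤ] (Fin 4 → ℤ) →ₗ[ℤ] ℤ) (x y : Fin 4 → ℤ) :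
    formQ B (io x) (io y) = (B x y : ℚ) := by
  rw [io_sum x, io_sum y]
  conv_rhs => rw [sum_single x, sum_single y]
  simp only [map_sum, LinearMap.sum_apply, map_smul, LinearMap.smul_apply, smul_eq_mul,
    formQ_single]
  push_cast
  rfl

theorem formQ_inj : Function.Injective formQ := by
  intro A B h
  refine LinearMap.ext fun x => LinearMap.ext fun y => ?_
  have h1 := formQ_io A x y
  rw [h, formQ_io] at h1
  exact_mod_cast h1.symm

/-- every rational vector has a multiple in the lattice. -/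
theorem exists_den (x : Fin 4 → ℚ) : ∃ n : ℤ, n ≠ 0 ∧ ∃ z, (n : ℚ) • x = io z := by
  refine ⟨∏ j, ((x j).den : ℤ), Finset.prod_ne_zero_iff.2 fun j _ => by
    exact_mod_cast (x j).den_ne_zero, ?_⟩
  have h : ∀ j, ∃ m : ℤ, ((∏ i, ((x i).den : ℤ) : ℤ) : ℚ) * x j = m := by
    intro j
    refine ⟨(∏ i ∈ Finset.univ.erase j, ((x i).den : ℤ)) * (x j).num, ?_⟩
    rw [← Finset.mul_prod_erase Finset.univ _ (Finset.mem_univ j)]
    push_cast
    have := Rat.den_mul_eq_num (x j)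
    calc ((x j).den : ℚ) * (∏ i ∈ Finset.univ.erase j, ((x i).den : ℚ)) * x j =
        (∏ i ∈ Finset.univ.erase j, ((x i).den : ℚ)) * (((x j).den : ℚ) * x j) := by ring
      _ = _ := by rw [this]
  choose z hz using h
  exact ⟨z, by ext j; rw [Pi.smul_apply, smul_eq_mul, hz, io_apply]⟩

/-- the rank of a group of lattice objects in a rational vector space. -/
theorem finrank_le_of_inj {M V : Type} [AddCommGroup M] [inst : Module ℤ M] [AddCommGroup V]
    [Module ℚ V] [FiniteDimensional ℚ V] (f : M →+ V) (hf : Function.Injective f) :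
    finrank ℤ M ≤ finrank ℚ V := by
  classical
  obtain rfl : inst = AddCommGroup.toIntModule M := Subsingleton.elim _ _
  refine finrank_le_of_rank_le (rank_le fun s hs => ?_)
  have h1 : LinearIndependent ℤ (f.toIntLinearMap ∘ fun i : s => (i : M)) :=
    hs.map' f.toIntLinearMap (LinearMap.ker_eq_bot.2 hf)
  have h2 : LinearIndependent ℚ (f.toIntLinearMap ∘ fun i : s => (i : M)) :=
    (LinearIndependent.iff_fractionRing ℤ ℚ).1 h1
  simpa using h2.fintype_card_le_finrank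

end Pool.Agent.H10.ED
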