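import Mathlib

/-!
# Invariant alternating forms of a local monodromy group of rank four
-/

namespace Pool.Agent.H10.ED

open Module

variable {V : Type} [AddCommGroup V] [Module ℚ V]

/-- The alternating bilinear forms on `V` which are invariant under the maps in `S`. -/
def Inv (S : Set (V →ₗ[ℚ] V)) : Submodule ℚ (V →ₗ[ℚ] V →ₗ[ℚ] ℚ) where
  carrier := {B | (∀ x, B x x = 0) ∧ ∀ T ∈ S, ∀ x y, B (T x) (T y) = B x y}
  zero_mem' := by simp
  add_mem' := by
    intro A B hA hB
    refine ⟨fun x => by simp [hA.1 x, hB.1 x], fun T hT x y => by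
      simp [hA.2 T hT x y, hB.2 T hT x y]⟩
  smul_mem' := by
    intro c A hA
    refine ⟨fun x => by simp [hA.1 x], fun T hT x y => by simp [hA.2 T hT x y]⟩

theorem skew {B : V →ₗ[ℚ] V →ₗ[ℚ] ℚ} (hB : ∀ x, B x x = 0) (x y : V) : B x y = - B y x := by
  have h := hB (x + y)
  simp only [map_add, LinearMap.add_apply, hB, zero_add, add_zero] at h
  linarith

/-- a form invariant under a transvection along `v` is a multiple of `E` on `v`. -/
theorem eq_zero_of_trans (E : V →ₗ[ℚ] V →ₗ[ℚ] ℚ) (v : V) (c : ℚ) (hc : c ≠ 0) (T : V →ₗ[ℚ] V) (hT : ∀ x, T x = x + (c * E x v) • v)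
    (B : V →ₗ[ℚ] V →ₗ[ℚ] ℚ) (hB : ∀ x, B x x = 0) (hinv : ∀ x y, B (T x) (T y) = B x y)
    (x0 : V) (hx0 : E x0 v ≠ 0) (h0 : B v x0 = 0) : ∀ y, B v y = 0 := by
  intro y
  have h := hinv x0 y
  rw [hT, hT] at h
  simp only [map_add, map_smul, LinearMap.add_apply, LinearMap.smul_apply, smul_eq_mul, hB,
    mul_zero, add_zero] at h
  have h1 : B x0 v = 0 := by rw [skew hB, h0, neg_zero]
  rw [h1] at h
  have h2 : c * E x0 v * B v y = 0 := by linarith
  rcases mul_eq_zero.1 h2 with h3 | h3
  · exact absurd h3 (mul_ne_zero hc hx0)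
  · exact h3

/-- complement of a pair of independent vectors in dimension four. -/
theorem exists_compl (hV : finrank ℚ V = 4) (v v' : V) (hind : LinearIndependent ℚ ![v, v']) :
    ∃ a b : V, ∀ x : V, ∃ α β γ δ : ℚ, x = α • v + β • v' + γ • a + δ • b := by
  have hfin : FiniteDimensional ℚ V := FiniteDimensional.of_finrank_pos (by omega)
  have hW : finrank ℚ (Submodule.span ℚ (Set.range ![v, v'])) = 2 := by
    rw [finrank_span_eq_card hind]
    simp
  have hQ : finrank ℚ (V ⧸ Submodule.span ℚ (Set.range ![v, v'])) = 2 := by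
    have := Submodule.finrank_quotient_add_finrank (Submodule.span ℚ (Set.range ![v, v']))
    omega
  set W := Submodule.span ℚ (Set.range ![v, v']) with hWdef
  let bq := finBasisOfFinrankEq ℚ (V ⧸ W) hQ
  obtain ⟨a, ha⟩ := Submodule.Quotient.mk_surjective W (bq 0)
  obtain ⟨b, hb⟩ := Submodule.Quotient.mk_surjective W (bq 1)
  refine ⟨a, b, fun x => ?_⟩
  have h1 := bq.sum_repr (Submodule.Quotient.mk x)
  rw [Fin.sum_univ_two, ← ha, ← hb] at h1
  set γ := bq.repr (Submodule.Quotient.mk x) 0
  set δ := bq.repr (Submodule.Quotient.mk x) 1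
  have h2 : x - (γ • a + δ • b) ∈ W := by
    rw [← Submodule.Quotient.mk_eq_zero, Submodule.Quotient.mk_sub, Submodule.Quotient.mk_add,
      Submodule.Quotient.mk_smul, Submodule.Quotient.mk_smul, h1, sub_self]
  have h3 : Set.range ![v, v'] = {v, v'} := by
    ext z
    simp [Matrix.range_cons, Matrix.range_empty, or_comm]
  rw [hWdef, h3, Submodule.mem_span_pair] at h2
  obtain ⟨α, β, h4⟩ := h2
  exact ⟨α, β, γ, δ, by rw [h4, ]; abel⟩

/-- **Two transvections along vectors which are not proportional have at most three independent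
invariant alternating forms.** -/
theorem finrank_inv_le_three (hV : finrank ℚ V = 4) (E : V →ₗ[ℚ] V →ₗ[ℚ] ℚ)
    (hnd : ∀ v, (∀ x, E x v = 0) → v = 0) (S : Set (V →ₗ[ℚ] V))
    (v v' : V) (c c' : ℚ) (hc : c ≠ 0) (hc' : c' ≠ 0) (T T' : V →ₗ[ℚ] V) (hTS : T ∈ S)
    (hTS' : T' ∈ S) (hT : ∀ x, T x = x + (c * E x v) • v)
    (hT' : ∀ x, T' x = x + (c' * E x v') • v') (hind : LinearIndependent ℚ ![v, v']) :
    finrank ℚ (Inv S) ≤ 3 := by
  have hfin : FiniteDimensional ℚ V := FiniteDimensional.of_finrank_pos (by omega)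
  have hv : v ≠ 0 := hind.ne_zero 0
  have hv' : v' ≠ 0 := hind.ne_zero 1
  obtain ⟨x0, hx0⟩ : ∃ x, E x v ≠ 0 := by
    by_contra h
    push Not at h
    exact hv (hnd v h)
  obtain ⟨x1, hx1⟩ : ∃ x, E x v' ≠ 0 := by
    by_contra h
    push Not at h
    exact hv' (hnd v' h)
  obtain ⟨a, b, hab⟩ := exists_compl hV v v' hind
  let f : Inv S →ₗ[ℚ] (Fin 3 → ℚ) :=
    { toFun := fun B => ![B.1 v x0, B.1 v' x1, B.1 a b]
      map_add' := by
        intro A B
        ext i
        fin_cases i <;> simp
      map_smul' := by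
        intro r A
        ext i
        fin_cases i <;> simp }
  have hf : Function.Injective f := by
    rw [injective_iff_map_eq_zero]
    intro B hB
    have e0 : B.1 v x0 = 0 := by simpa [f] using congrFun hB 0
    have e1 : B.1 v' x1 = 0 := by simpa [f] using congrFun hB 1
    have e2 : B.1 a b = 0 := by simpa [f] using congrFun hB 2
    have halt := B.2.1
    have z0 := eq_zero_of_trans E v c hc T hT B.1 halt (B.2.2 T hTS) x0 hx0 e0
    have z1 := eq_zero_of_trans E v' c' hc' T' hT' B.1 halt (B.2.2 T' hTS') x1 hx1 e1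
    have z0' : ∀ y, B.1 y v = 0 := fun y => by rw [skew halt, z0, neg_zero]
    have z1' : ∀ y, B.1 y v' = 0 := fun y => by rw [skew halt, z1, neg_zero]
    have e2' : B.1 b a = 0 := by rw [skew halt, e2, neg_zero]
    apply Subtype.ext
    refine LinearMap.ext fun x => LinearMap.ext fun y => ?_
    obtain ⟨α, β, γ, δ, rfl⟩ := hab x
    obtain ⟨α', β', γ', δ', rfl⟩ := hab y
    simp [z0, z1, z0', z1', e2, e2', halt]
  have := LinearMap.finrank_le_finrank_of_injective hf
  simpa using this

/-- **An element of order six of Kodaira type `II` has at most two independent invariant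
alternating forms.** -/
theorem finrank_inv_le_two (hV : finrank ℚ V = 4) (E : V →ₗ[ℚ] V →ₗ[ℚ] ℚ)
    (hE : ∀ x, E x x = 0) (S : Set (V →ₗ[ℚ] V)) (T : V →ₗ[ℚ] V) (hTS : T ∈ S) (c e : V)
    (hce : E c e ≠ 0) (hc : T c = e) (he : T e = e - c)
    (hT : ∀ x, E x c = 0 → E x e = 0 → T x = x) :
    finrank ℚ (Inv S) ≤ 2 := by
  have hfin : FiniteDimensional ℚ V := FiniteDimensional.of_finrank_pos (by omega)
  have hec : E e c ≠ 0 := by
    rw [skew hE]
    exact neg_ne_zero.2 hce
  -- the orthogonal plane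
  let g : V →ₗ[ℚ] (Fin 2 → ℚ) :=
    { toFun := fun x => ![E x c, E x e]
      map_add' := by
        intro x y
        ext i
        fin_cases i <;> simp
      map_smul' := by
        intro r x
        ext i
        fin_cases i <;> simp }
  have hg : Function.Surjective g := by
    intro z
    refine ⟨(z 1 / E c e) • c + (z 0 / E e c) • e, ?_⟩
    ext i
    fin_cases i
    · simp [g, hE, hec]
    · simp [g, hE, hce]
  have hker : finrank ℚ (LinearMap.ker g) = 2 := by
    have h1 := LinearMap.finrank_range_add_finrank_ker g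
    rw [LinearMap.range_eq_top.2 hg, finrank_top, hV] at h1
    simp at h1
    omega
  let q := finBasisOfFinrankEq ℚ (LinearMap.ker g) hker
  have hq : ∀ x : V, ∃ α β γ δ : ℚ, x = α • c + β • e + γ • (q 0 : V) + δ • (q 1 : V) := by
    intro x
    have hx : x - ((E x e / E c e) • c + (E x c / E e c) • e) ∈ LinearMap.ker g := by
      rw [LinearMap.mem_ker]
      ext i
      fin_cases i
      · simp [g, hE, hec]
      · simp [g, hE, hce]
    have h1 := q.sum_repr ⟨_, hx⟩
    rw [Fin.sum_univ_two] at h1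
    have h2 := congrArg Subtype.val h1
    simp only [Submodule.coe_add, Submodule.coe_smul] at h2
    refine ⟨E x e / E c e, E x c / E e c, q.repr ⟨_, hx⟩ 0, q.repr ⟨_, hx⟩ 1, ?_⟩
    rw [add_assoc ((E x e / E c e) • c + (E x c / E e c) • e), h2]
    abel
  have hq0 : ∀ i, T (q i : V) = q i := by
    intro i
    have hi := (q i).2
    rw [LinearMap.mem_ker] at hi
    have h0 : E (q i : V) c = 0 := congrFun hi 0
    have h1 : E (q i : V) e = 0 := congrFun hi 1
    exact hT _ h0 h1
  let f : Inv S →ₗ[ℚ] (Fin 2 → ℚ) :=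
    { toFun := fun B => ![B.1 c e, B.1 (q 0 : V) (q 1 : V)]
      map_add' := by
        intro A B
        ext i
        fin_cases i <;> simp
      map_smul' := by
        intro r A
        ext i
        fin_cases i <;> simp }
  have hf : Function.Injective f := by
    rw [injective_iff_map_eq_zero]
    intro B hB
    have e0 : B.1 c e = 0 := by simpa [f] using congrFun hB 0
    have e1 : B.1 (q 0 : V) (q 1 : V) = 0 := by simpa [f] using congrFun hB 1
    have halt := B.2.1
    have hinv := B.2.2 T hTS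
    have e0' : B.1 e c = 0 := by rw [skew halt, e0, neg_zero]
    have e1' : B.1 (q 1 : V) (q 0 : V) = 0 := by rw [skew halt, e1, neg_zero]
    have hc' : ∀ i, B.1 (q i : V) c = 0 := by
      intro i
      have h1 := hinv (q i) c
      have h2 := hinv (q i) e
      rw [hq0, hc] at h1
      rw [hq0, he, map_sub] at h2
      linarith
    have he' : ∀ i, B.1 (q i : V) e = 0 := by
      intro i
      have h1 := hinv (q i) c
      rw [hq0, hc, hc'] at h1
      exact h1
    have hc'' : ∀ i, B.1 c (q i : V) = 0 := fun i => by rw [skew halt, hc', neg_zero]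
    have he'' : ∀ i, B.1 e (q i : V) = 0 := fun i => by rw [skew halt, he', neg_zero]
    apply Subtype.ext
    refine LinearMap.ext fun x => LinearMap.ext fun y => ?_
    obtain ⟨α, β, γ, δ, rfl⟩ := hq x
    obtain ⟨α', β', γ', δ', rfl⟩ := hq y
    simp [hc', he', hc'', he'', e0, e0', e1, e1', halt]
  have := LinearMap.finrank_le_finrank_of_injective hf
  simpa using this

end Pool.Agent.H10.ED
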