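import Pool.Agent.H10.ED.Ext
import Pool.Agent.H50.ED.Defs

/-!
# The invariants of a local monodromy group
-/

namespace Pool.Agent.H10.ED

open Module
open Pool.Agent.H50.ED (Lam Aut E IsNode IsCusp)

/-- a transvection along `v`. -/
def TrV (d : ℕ) (T : Aut) (v : Lam) : Prop :=
  v ≠ 0 ∧ ∃ g : ℤ, g ≠ 0 ∧ ∃ h : Lam → ℤ, (∀ x, E d x v = g * h x) ∧ ∀ x, T x = x + h x • v

/-- the type of Kodaira's `II`. -/
def Six (d : ℕ) (T : Aut) : Prop :=
  ∃ c e : Lam, E d c e ≠ 0 ∧ T c = e ∧ T e = e - c ∧ ∀ x, E d x c = 0 → E d x e = 0 → T x = x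

/-- the form as a bilinear map over the rational numbers. -/
def EQ (d : ℕ) : (Fin 4 → ℚ) →ₗ[ℚ] (Fin 4 → ℚ) →ₗ[ℚ] ℚ :=
  LinearMap.mk₂ ℚ (fun a b => a 0 * b 1 - a 1 * b 0 + d * (a 2 * b 3 - a 3 * b 2))
    (by intros; simp only [Pi.add_apply]; ring)
    (by intros; simp only [Pi.smul_apply, smul_eq_mul]; ring)
    (by intros; simp only [Pi.add_apply]; ring)
    (by intros; simp only [Pi.smul_apply, smul_eq_mul]; ring)

theorem EQ_apply (d : ℕ) (a b : Fin 4 → ℚ) :
    EQ d a b = a 0 * b 1 - a 1 * b 0 + d * (a 2 * b 3 - a 3 * b 2) := rfl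

theorem EQ_io (d : ℕ) (x y : Lam) : EQ d (io x) (io y) = (E d x y : ℚ) := by
  rw [EQ_apply, E]
  simp only [io_apply]
  push_cast
  ring

theorem EQ_self (d : ℕ) (x : Fin 4 → ℚ) : EQ d x x = 0 := by
  rw [EQ_apply]; ring

theorem EQ_nd {d : ℕ} (hd : 0 < d) (v : Fin 4 → ℚ) (h : ∀ x, EQ d x v = 0) : v = 0 := by
  have hd' : (d : ℚ) ≠ 0 := by exact_mod_cast hd.ne'
  have h0 := h (Pi.single 0 1)
  have h1 := h (Pi.single 1 1)
  have h2 := h (Pi.single 2 1)
  have h3 := h (Pi.single 3 1)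
  simp [EQ_apply] at h0 h1 h2 h3
  ext j
  fin_cases j
  · simpa using h1
  · simpa using h0
  · simpa [hd.ne'] using h3
  · simpa [hd.ne'] using h2

theorem conj_apply (S T : Aut) (x : Lam) : (S * T * S⁻¹) x = S (T (S.symm x)) := rfl

theorem TrV.conj {d : ℕ} {T S : Aut} {v : Lam} (hS : ∀ a b, E d (S a) (S b) = E d a b)
    (h : TrV d T v) : TrV d (S * T * S⁻¹) (S v) := by
  obtain ⟨hv, g, hg, h, h1, h2⟩ := h
  refine ⟨fun h0 => hv (S.injective (by rw [h0, map_zero])), g, hg, fun x => h (S.symm x),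
    fun x => ?_, fun x => ?_⟩
  · have h3 := hS (S.symm x) v
    rw [LinearEquiv.apply_symm_apply] at h3
    rw [h3, h1]
  · rw [conj_apply, h2, map_add, map_smul, LinearEquiv.apply_symm_apply]

theorem Six.conj {d : ℕ} {T S : Aut} (hS : ∀ a b, E d (S a) (S b) = E d a b)
    (h : Six d T) : Six d (S * T * S⁻¹) := by
  obtain ⟨c, e, h0, h1, h2, h3⟩ := h
  refine ⟨S c, S e, by rwa [hS], ?_, ?_, fun x hx hx' => ?_⟩
  · rw [conj_apply, LinearEquiv.symm_apply_apply, h1]
  · rw [conj_apply, LinearEquiv.symm_apply_apply, h2, map_sub]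
  · have e1 : E d (S.symm x) c = 0 := by rw [← hS, LinearEquiv.apply_symm_apply, hx]
    have e2 : E d (S.symm x) e = 0 := by rw [← hS, LinearEquiv.apply_symm_apply, hx']
    rw [conj_apply, h3 _ e1 e2, LinearEquiv.apply_symm_apply]

theorem trV_of_node {d g : ℕ} (hg : 0 < g) {T : Aut} {v : Lam} (h : IsNode d g T v) :
    TrV d T v := by
  obtain ⟨h0, h, h1, h2, h3⟩ := h
  refine ⟨?_, g, by exact_mod_cast hg.ne', h, h1, h3⟩
  rintro rfl
  exact h0 2 Nat.prime_two fun j => by simp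

theorem six_of_cusp {d g : ℕ} (hg : 0 < g) {T : Aut} (h : IsCusp d g T) : Six d T := by
  obtain ⟨c, e, h0, h1, h2, h3, -⟩ := h
  exact ⟨c, e, by rw [h0]; exact_mod_cast hg.ne', h1, h2, h3⟩

theorem TrV.mapQ {d : ℕ} {T : Aut} {v : Lam} (h : TrV d T v) :
    ∃ c : ℚ, c ≠ 0 ∧ ∀ x, mapQ (T : Lam →ₗ[ℤ] Lam) x = x + (c * EQ d x (io v)) • io v := by
  obtain ⟨hv, g, hg, h, h1, h2⟩ := h
  have hg' : (g : ℚ) ≠ 0 := by exact_mod_cast hg
  refine ⟨(g : ℚ)⁻¹, inv_ne_zero hg', ?_⟩
  have key : H10.ED.mapQ (T : Lam →ₗ[ℤ] Lam) =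
      LinearMap.id + (((g : ℚ)⁻¹ • (EQ d).flip (io v)).smulRight (io v)) := by
    refine ext_io fun x => ?_
    rw [mapQ_io, LinearEquiv.coe_coe, h2, map_add]
    simp only [LinearMap.add_apply, LinearMap.id_apply, LinearMap.smulRight_apply,
      LinearMap.smul_apply, LinearMap.flip_apply, smul_eq_mul, EQ_io, h1]
    congr 1
    rw [map_smul]
    ext j
    simp only [Pi.smul_apply, smul_eq_mul, zsmul_eq_mul]
    push_cast
    field_simp
  intro x
  rw [key]
  simp [LinearMap.flip_apply]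

theorem Six.mapQ {d : ℕ} {T : Aut} (h : Six d T) :
    ∃ c e : Fin 4 → ℚ, EQ d c e ≠ 0 ∧ mapQ (T : Lam →ₗ[ℤ] Lam) c = e ∧
      mapQ (T : Lam →ₗ[ℤ] Lam) e = e - c ∧
      ∀ x, EQ d x c = 0 → EQ d x e = 0 → mapQ (T : Lam →ₗ[ℤ] Lam) x = x := by
  obtain ⟨c, e, h0, h1, h2, h3⟩ := h
  refine ⟨io c, io e, ?_, ?_, ?_, fun x hx hx' => ?_⟩
  · rw [EQ_io]
    exact_mod_cast h0
  · rw [mapQ_io, LinearEquiv.coe_coe, h1]
  · rw [mapQ_io, LinearEquiv.coe_coe, h2, map_sub]
  · obtain ⟨n, hn, z, hz⟩ := exists_den x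
    have hn' : (n : ℚ) ≠ 0 := by exact_mod_cast hn
    have e1 : E d z c = 0 := by
      have : (E d z c : ℚ) = 0 := by
        rw [← EQ_io, ← hz, map_smul, LinearMap.smul_apply, hx, smul_zero]
      exact_mod_cast this
    have e2 : E d z e = 0 := by
      have : (E d z e : ℚ) = 0 := by
        rw [← EQ_io, ← hz, map_smul, LinearMap.smul_apply, hx', smul_zero]
      exact_mod_cast this
    have h4 : H10.ED.mapQ (T : Lam →ₗ[ℤ] Lam) ((n : ℚ) • x) = (n : ℚ) • x := by
      rw [hz, mapQ_io, LinearEquiv.coe_coe, h3 z e1 e2]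
    rw [map_smul] at h4
    exact smul_right_injective _ hn' h4

/-- the invariant forms over `ℤ` and over `ℚ`. -/
theorem inv_le (M : Set Aut) : finrank ℤ (Pool.Agent.H50.ED.Inv M) ≤
    finrank ℚ (Inv ((fun T : Aut => mapQ (T : Lam →ₗ[ℤ] Lam)) '' M)) := by
  let f : Pool.Agent.H50.ED.Inv M →+ Inv ((fun T : Aut => mapQ (T : Lam →ₗ[ℤ] Lam)) '' M) :=
    { toFun := fun B => ⟨formQ B.1, by
        have hB : (∀ x, B.1 x x = 0) ∧ ∀ T ∈ M, ∀ x y, B.1 (T x) (T y) = B.1 x y := B.2
        have hskew : ∀ x y, B.1 x y = - B.1 y x := by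
          intro x y
          have := hB.1 (x + y)
          simp only [map_add, LinearMap.add_apply, hB.1, zero_add, add_zero] at this
          linarith
        refine ⟨fun x => ?_, ?_⟩
        · have h1 : formQ B.1 = - (formQ B.1).flip := by
            refine ext_io fun x => ext_io fun y => ?_
            rw [LinearMap.neg_apply, LinearMap.neg_apply, LinearMap.flip_apply, formQ_io, formQ_io,
              hskew x y]
            push_cast
            rfl
          have h2 := congrArg (fun F => F x x) h1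
          simp only [LinearMap.neg_apply, LinearMap.flip_apply] at h2
          linarith
        · rintro _ ⟨T, hT, rfl⟩ x y
          have h1 : (formQ B.1).compl₁₂ (mapQ (T : Lam →ₗ[ℤ] Lam)) (mapQ (T : Lam →ₗ[ℤ] Lam)) =
              formQ B.1 := by
            refine ext_io fun x => ext_io fun y => ?_
            rw [LinearMap.compl₁₂_apply, mapQ_io, mapQ_io, formQ_io, formQ_io]
            exact_mod_cast hB.2 T hT x y
          have h2 := congrArg (fun F => F x y) h1
          simpa [LinearMap.compl₁₂_apply] using h2⟩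
      map_zero' := by
        apply Subtype.ext
        simp
      map_add' := fun A B => by
        apply Subtype.ext
        simp }
  refine finrank_le_of_inj f fun A B h => Subtype.ext (formQ_inj ?_)
  exact congrArg Subtype.val h

/-- the orthogonal complement of a vector. -/
def perp (d : ℕ) (v : Lam) : Submodule ℤ Lam where
  carrier := {x | E d x v = 0}
  zero_mem' := by simp [E]
  add_mem' := fun {x y} hx hy => by
    have : E d (x + y) v = E d x v + E d y v := by simp only [E, Pi.add_apply]; ring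
    simp only [Set.mem_ofPred_eq] at *
    rw [this, hx, hy, add_zero]
  smul_mem' := fun c x hx => by
    have : E d (c • x) v = c * E d x v := by simp only [E, Pi.smul_apply, smul_eq_mul]; ring
    simp only [Set.mem_ofPred_eq] at *
    rw [this, hx, mul_zero]

theorem three_le_perp (d : ℕ) (v : Lam) : 3 ≤ finrank ℤ (perp d v) := by
  let f : Lam →ₗ[ℤ] ℤ :=
    { toFun := fun x => E d x v
      map_add' := fun x y => by simp only [E, Pi.add_apply]; ring
      map_smul' := fun c x => by simp only [E, Pi.smul_apply, smul_eq_mul, RingHom.id_apply]; ring }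
  have hk : LinearMap.ker f = perp d v := by
    ext x
    rfl
  have h1 := (LinearMap.ker f).finrank_quotient_add_finrank
  have h2 : finrank ℤ (Lam ⧸ LinearMap.ker f) ≤ 1 := by
    rw [f.quotKerEquivRange.finrank_eq]
    calc finrank ℤ (LinearMap.range f) ≤ finrank ℤ ℤ := (LinearMap.range f).finrank_le
      _ = 1 := finrank_self ℤ
  have h3 : finrank ℤ Lam = 4 := by simp
  rw [hk] at h1 h2
  omega

theorem finQ : finrank ℚ (Fin 4 → ℚ) = 4 := by simp

/-- **The invariants of a local monodromy group with at most two independent invariant vectors.** -/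
theorem inv_bound {d : ℕ} (hd : 0 < d) (M : Set Aut) (hM : ∀ T ∈ M, (∃ v, TrV d T v) ∨ Six d T)
    (hF : finrank ℤ (Pool.Agent.H50.ED.Fix M) ≤ 2) :
    finrank ℤ (Pool.Agent.H50.ED.Inv M) ≤ 3 ∧
      ((∃ T ∈ M, Six d T) → finrank ℤ (Pool.Agent.H50.ED.Inv M) ≤ 2) := by
  have two : (∃ T ∈ M, Six d T) → finrank ℤ (Pool.Agent.H50.ED.Inv M) ≤ 2 := by
    rintro ⟨T, hT, h6⟩
    obtain ⟨c, e, h0, h1, h2, h3⟩ := h6.mapQ
    exact (inv_le M).trans (finrank_inv_le_two finQ (EQ d) (EQ_self d) _ _ ⟨T, hT, rfl⟩ c e h0 h1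
      h2 h3)
  refine ⟨?_, two⟩
  by_cases h6 : ∃ T ∈ M, Six d T
  · exact (two h6).trans (by norm_num)
  have hM' : ∀ T ∈ M, ∃ v, TrV d T v := fun T hT => (hM T hT).resolve_right fun h => h6 ⟨T, hT, h⟩
  by_cases hne : ∃ T ∈ M, ∃ T' ∈ M, ∃ v v', TrV d T v ∧ TrV d T' v' ∧
      LinearIndependent ℚ ![io v, io v']
  · obtain ⟨T, hT, T', hT', v, v', hv, hv', hind⟩ := hne
    obtain ⟨c, hc, h1⟩ := hv.mapQ
    obtain ⟨c', hc', h1'⟩ := hv'.mapQ
    exact (inv_le M).trans (finrank_inv_le_three finQ (EQ d) (EQ_nd hd) _ (io v) (io v') c c' hc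
      hc' _ _ ⟨T, hT, rfl⟩ ⟨T', hT', rfl⟩ h1 h1' hind)
  exfalso
  obtain ⟨v, hv⟩ : ∃ v, ∀ T ∈ M, ∀ x, E d x v = 0 → T x = x := by
    by_cases hemp : ∃ T0, T0 ∈ M
    · obtain ⟨T0, hT0⟩ := hemp
      obtain ⟨v0, hv0⟩ := hM' T0 hT0
      refine ⟨v0, fun T hT x hx => ?_⟩
      obtain ⟨v, hv⟩ := hM' T hT
      have hdep : ¬ LinearIndependent ℚ ![io v0, io v] := fun h =>
        hne ⟨T0, hT0, T, hT, v0, v, hv0, hv, h⟩
      rw [LinearIndependent.pair_iff] at hdep
      push Not at hdep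
      obtain ⟨s, t, hst, hne0⟩ := hdep
      have ht : t ≠ 0 := by
        rintro rfl
        have hs : s ≠ 0 := fun h => hne0 h rfl
        rw [zero_smul, add_zero] at hst
        have := (smul_eq_zero.1 hst).resolve_left hs
        exact hv0.1 (io_inj (by rw [this, map_zero]))
      have h1 : EQ d (io x) (io v) = 0 := by
        have h2 := congrArg (EQ d (io x)) hst
        rw [map_add, map_smul, map_smul, EQ_io, hx, map_zero] at h2
        simpa [ht] using h2
      have h3 : E d x v = 0 := by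
        rw [EQ_io] at h1
        exact_mod_cast h1
      obtain ⟨-, g, hg, h, h4, h5⟩ := hv
      have h6 : h x = 0 := by
        have := h4 x
        rw [h3] at this
        exact (mul_eq_zero.1 this.symm).resolve_left hg
      rw [h5, h6, zero_smul, add_zero]
    · exact ⟨0, fun T hT => absurd ⟨T, hT⟩ hemp⟩
  have h1 : perp d v ≤ Pool.Agent.H50.ED.Fix M := fun x hx T hT => hv T hT x hx
  have h2 := Submodule.finrank_mono h1
  have h3 := three_le_perp d v
  omega

end Pool.Agent.H10.ED
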