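import Pool.Agent.H10.ED.Local
import Pool.Agent.H10.ED.Euler
import Pool.Agent.H50.ED.Spec
import Pool.Agent.H50.ED.Local

/-!
# Module Z: the Euler number is at most `delta (delta - 1) / 2`
-/

namespace Pool.Agent.H10.ED

open Module
open Pool.Agent.H50.ED (Lam Aut E IsNode IsCusp Data Paramodular ZStatement)
open Pool.Agent.H10.Alb

section

variable {d b2 b3 : ℕ} {H : Type} [AddCommGroup H] {q : H → H → ℤ} {C : Chern b2 b3 q}
  {int : H → H → ℚ} {Par : Paramodular d} (D : Data d b2 C int Par)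

theorem mem_lmer (b : D.Q) (T : Aut) (hT : T ∈ D.lmer b) : (∃ v, TrV d T v) ∨ Six d T := by
  obtain ⟨i, γ, -, rfl⟩ := D.lmer_sub b T hT
  have hconj : D.rho (γ * D.mer i * γ⁻¹) = D.rho γ * D.rho (D.mer i) * (D.rho γ)⁻¹ := by
    rw [map_mul, map_mul, map_inv]
  rw [hconj]
  rcases D.loc i with ⟨-, v, hv⟩ | ⟨-, h⟩
  · exact Or.inl ⟨_, (trV_of_node (D.g_pos i) hv).conj (D.symp γ)⟩
  · exact Or.inr ((six_of_cusp (D.g_pos i) h).conj (D.symp γ))

theorem fix_le (b : D.Q) : finrank ℤ (Pool.Agent.H50.ED.Fix (D.lmer b)) ≤ 2 := by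
  obtain ⟨t, h1, h2, -⟩ := D.tor b
  omega

theorem hw (i : D.I) : D.w i = 1 ∨ D.w i = 2 := (D.loc i).imp (fun h => h.1) fun h => h.1

theorem eul_nonneg (b : D.Q) : 0 ≤ D.eul b := by
  obtain ⟨t, h1, h2, h3⟩ := D.tor b
  rcases eq_or_lt_of_le h1 with h | h
  · obtain ⟨n, hn⟩ := h3 h
    rw [hn]
    positivity
  · have := D.eul_eq b
    omega

theorem eul_le (b : D.Q) : D.eul b ≤ 2 * (∑ i, (D.w i : ℤ) * D.mult b i) - 3 := by
  have h1 := D.eul_eq b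
  have h2 := (inv_bound D.d_pos (D.lmer b) (mem_lmer D b) (fix_le D b)).1
  have h3 : (4 : ℤ) ≤ finrank ℤ (Pool.Agent.H50.ED.Fix (D.lmer b)) +
      ∑ i, (D.w i : ℤ) * D.mult b i := by exact_mod_cast D.morse b
  have h4 : (finrank ℤ (Pool.Agent.H50.ED.Inv (D.lmer b)) : ℤ) ≤ 3 := by exact_mod_cast h2
  have h5 : (0 : ℤ) ≤ D.L1 b := by positivity
  omega

theorem eul_le' (b : D.Q) (hb : ∃ i, D.w i = 2 ∧ D.mult b i ≠ 0) :
    D.eul b ≤ 2 * (∑ i, (D.w i : ℤ) * D.mult b i) - 4 := by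
  obtain ⟨i, hi, hm⟩ := hb
  obtain ⟨γ, hγ⟩ := D.lmer_ex b i (Nat.pos_of_ne_zero hm)
  have h6 : ∃ T ∈ D.lmer b, Six d T := by
    refine ⟨_, hγ, ?_⟩
    have hconj : D.rho (γ * D.mer i * γ⁻¹) = D.rho γ * D.rho (D.mer i) * (D.rho γ)⁻¹ := by
      rw [map_mul, map_mul, map_inv]
    rw [hconj]
    rcases D.loc i with ⟨h, -⟩ | ⟨-, h⟩
    · omega
    · exact (six_of_cusp (D.g_pos i) h).conj (D.symp γ)
  have h1 := D.eul_eq b
  have h2 := (inv_bound D.d_pos (D.lmer b) (mem_lmer D b) (fix_le D b)).2 h6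
  have h3 : (4 : ℤ) ≤ finrank ℤ (Pool.Agent.H50.ED.Fix (D.lmer b)) +
      ∑ i, (D.w i : ℤ) * D.mult b i := by exact_mod_cast D.morse b
  have h4 : (finrank ℤ (Pool.Agent.H50.ED.Inv (D.lmer b)) : ℤ) ≤ 2 := by exact_mod_cast h2
  have h5 : (0 : ℤ) ≤ D.L1 b := by positivity
  omega

theorem two_eul_le : 2 * ∑ b, D.eul b ≤
    (∑ i, (D.w i : ℤ) * D.deg i) ^ 2 - ∑ i, (D.w i : ℤ) * D.deg i := by
  refine euler_le D.w D.deg (hw D) D.mult D.eul (fun i j hij => ?_) (fun i => ?_)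
    (fun b _ => eul_le D b) (fun b _ hb => eul_le' D b hb)
  · exact_mod_cast D.bezout i j hij
  · have key : ∀ n : ℕ, ((n * (n - 1) : ℕ) : ℤ) = (n : ℤ) ^ 2 - n := by
      intro n
      rcases n with _ | n
      · simp
      · rw [Nat.add_sub_cancel]
        push_cast
        ring
    have h := D.polar i
    have h' : ((∑ b, D.mult b i * (D.mult b i - 1) : ℕ) : ℤ) ≤
        ((D.deg i * (D.deg i - 1) : ℕ) : ℤ) := by exact_mod_cast h
    rw [Nat.cast_sum, key] at h'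
    simpa only [key] using h'

end

/-- **Module Z.** -/
theorem zed : ZStatement := by
  intro d b2 b3 H _ q C int Par D
  have h1 : (0 : ℤ) ≤ ∑ b, D.eul b := Finset.sum_nonneg fun b _ => eul_nonneg D b
  have h2 := two_eul_le D
  refine ⟨?_, ?_⟩
  · rw [D.eul_sum]
    exact_mod_cast h1
  · rw [D.eul_sum]
    have h3 : (2 : ℚ) * ∑ b, (D.eul b : ℚ) ≤
        (∑ i, (D.w i : ℚ) * D.deg i) ^ 2 - ∑ i, (D.w i : ℚ) * D.deg i := by exact_mod_cast h2
    push_cast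
    linarith

end Pool.Agent.H10.ED
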